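import Pool.Graph.R_seed8.Results.MP_cbc9f3_lc.AlsoCollapses

/-!
# Collapses of cardinals by the Cohen forcing at an uncountable cardinal, in ZF

If the Cohen forcing `Add(l, 1)` at an uncountable cardinal `l` adds a function from a set `b` onto
a set `k` and there is no such function in the ground model, then it adds a function from `b` onto
`l`. So if it collapses a cardinal `k`, then it collapses all cardinals between `k` and `l`.
-/

set_option maxHeartbeats 1000000
set_option linter.all false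
set_option synthInstance.maxSize 2000

namespace Pool.Agent.Results.MP_cbc9f3_lc.AllCardinals

open FirstOrder FirstOrder.Language
open Pool.Agent.Helper672.Plain (LSet Mem)
open Pool.Agent.H310Cards
open Pool.Agent.V11246 (Sub NameAt)

universe u

/-- `k` is a cardinal: an ordinal that has no injection into one of its elements. -/
def IsCard {M : Type u} [LSet.Structure M] (k : M) : Prop :=
  Pool.Agent.V11246.IsOrdinal k ∧ ∀ b, Mem b k → ¬ ∃ f, IsInj f k b

/-- `g` is a function from `b` onto `k`. -/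
def IsOnto {M : Type u} [LSet.Structure M] (g b k : M) : Prop :=
  IsFun g b k ∧ ∀ y, Mem y k → ∃ x, App g x y

/-- The condition `p` of the forcing `P` (with the order of reverse inclusion) forces that the
set named by `F` restricts to a function from `b` to `k` which is not in the ground model: for
every function `g` from `b` to `k` of the model and every condition `r` below `p` there are `x` in
`b` and a condition `s` below `r` that forces the value of `F` at `x` to be some `y` which is not
the value of `g` at `x`. -/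
structure ForcesNew {M : Type u} [LSet.Structure M] (P p F b k : M) : Prop where
  mem : Mem p P
  func : ∀ r q q' x y y', Mem r P → Sub p r → Mem q P → Sub q r → Mem q' P → Sub q' r →
    Mem x b → Mem y k → Mem y' k → NameAt F q x y → NameAt F q' x y' → y = y'
  total : ∀ x r, Mem x b → Mem r P → Sub p r →
    ∃ s q y, Mem s P ∧ Sub r s ∧ Mem q P ∧ Sub q s ∧ Mem y k ∧ NameAt F q x y
  new : ∀ g r, IsFun g b k → Mem r P → Sub p r →
    ∃ s q x y, Mem s P ∧ Sub r s ∧ Mem q P ∧ Sub q s ∧ Mem x b ∧ Mem y k ∧ NameAt F q x y ∧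
      ¬ App g x y

end Pool.Agent.Results.MP_cbc9f3_lc.AllCardinals

namespace Pool.Agent.Helper672.ZFA.V246

open FirstOrder FirstOrder.Language
open H635 (IWO)
open Pool.Agent.H310
open Pool.Agent.H310Cards
open Pool.Agent.V11246 (IsOrdinal IsSuccCard IsBit Sub IsCond IsCohen NameAt ForcesSurj Collapses)
open Pool.Agent.Helper672.Plain (LSet)
open Pool.Agent.H635Amen (ZF)
open Pool.Agent.Results.MP_cbc9f3_lc.AllCardinals (IsCard IsOnto ForcesNew)

universe u

section

attribute [local instance] Helper672.Plain.toL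

variable {M : Type u} [LSet.Structure M] [hZ : ZF M]

local instance instModelL8 : IsModel M := Helper672.Plain.isModel_toL

theorem ac_crd {l w : M} (hl : IsCard l) (hw : IsOmega w) (hwl : Mem w l) :
    letI := olin hl.1; letI := oile hl.1; Crd M (El l) := by
  letI := olin hl.1
  letI := oile hl.1
  refine ⟨(iwo_El fun _ hx => isOrdinal_of_mem hl.1 hx).wf, ?_, ?_⟩
  · rintro b ⟨e, he, hei, hb⟩
    have hb' : ∀ x, Mem (e x).1 b.1 := hb
    have hψ : IntF M (fun x : El l => mkE (hb' x)) := by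
      refine (Int.comp₂ (p := fun (x : El l) (y : El b.1) => x.1 = y.1) ?_ (he.comp IntF.fst')
        IntF.snd').congr fun q => ?_
      · exact Int.of_D₂ (S := fun v => v 0 = v 1) (D.eqf (DF.var _) (DF.var _))
          fun _ _ => Iff.rfl
      · exact ⟨fun h => Subtype.ext h, fun h => congrArg (fun z : El b.1 => z.1) h⟩
    refine hl.2 b.1 b.2 ⟨_, isInj_relc hψ (fun x y hxy => ?_) fun x => (mkE (hb' x)).2⟩
    exact hei (Subtype.ext (congrArg (fun z : El b.1 => z.1) hxy))
  · have hm : ∀ n : INat M, Mem (code n) w := fun n => (mem_omega hw).2 ⟨n, rfl⟩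
    refine ⟨fun n => ⟨code n, hl.1.1 w hwl _ (hm n)⟩, ?_, fun n m hnm => ?_, ⟨w, hwl⟩,
      fun n => hm n⟩
    · exact IntF.of_D (S := fun v => v 0 = v 1) (D.eqf (DF.var _) (DF.var _))
        fun x y => ⟨fun h1 => Subtype.ext h1, fun h1 => congrArg Subtype.val h1⟩
    · exact ITy.inj (M := M) (congrArg (fun z : El l => z.1) hnm)

/-- an internal function is a function in the sense of the model -/
theorem ac_isFun {b k : M} {g : El b → El k} (hg : IntF M g) :
    IsFun (relc M fun (x : El b) (y : El k) => g x = y) b k := by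
  have hI : Int M (fun q : El b × El k => g q.1 = q.2) := hg
  refine ⟨?_, ?_⟩
  · intro q hq
    obtain ⟨a, c, rfl, rfl⟩ := (mem_relc hI).1 hq
    exact ⟨a.1, (g a).1, a.2, (g a).2, ordPair_iff.2 rfl⟩
  · intro x hx
    refine ⟨(g ⟨x, hx⟩).1, app_iff.2 ((mem_relc hI).2 ⟨⟨x, hx⟩, g ⟨x, hx⟩, rfl, rfl⟩), ?_⟩
    intro y hy
    obtain ⟨a, c, h1, h2⟩ := (mem_relc hI).1 (app_iff.1 hy)
    obtain ⟨h3, h4⟩ := op_inj h2
    have h5 : (⟨x, hx⟩ : El b) = a := Subtype.ext h3
    rw [h4, h5, h1]
    rfl

variable {K : Type u} [ITy M K] [LinearOrder K] [ILE M K] {B : Type u} [ITy M B]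

/-- a new function on `b` gives a surjection from `b` onto subsets of `l` -/
theorem ac_transfer (h : Crd M K) {l : M} (hlo : IsOrdinal l)
    (hK : ∀ z, Mem z l ↔ ∃ x : K, code x = z)
    (hlt : ∀ x y : K, x < y ↔ Mem (code (M := M) x) (code y))
    (hB : ∀ z : M, IsBit z ↔ ∃ v : B, code v = z) {o i : B} (hoi : o ≠ i)
    {P : M} (hP : IsCohen P l) {p F b k k' : M} (hF : ForcesNew P p F b k)
    {j : El k' → K} (hj : IntF M j) (hji : Function.Injective j) (y₀ : El k') :
    ∃ p' F', ForcesSurj P p' F' b k' := by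
  have hPm : ∀ z, Mem z P ↔ ∃ q : Cd M K B, code q = z := by
    intro z
    refine (hP z).trans ⟨exists_cond hlo hK hlt hB, ?_⟩
    rintro ⟨q, rfl⟩
    exact isCond_code hK hlt hB q
  have hPc : ∀ q : Cd M K B, Mem (code (M := M) q) P := fun q => (hPm _).2 ⟨q, rfl⟩
  obtain ⟨p₀, hp₀⟩ := (hPm p).1 hF.mem
  -- the name as an internal relation
  obtain ⟨F₀, hF₀, hF₀I⟩ : ∃ F₀ : Cd M K B → El b → El k → Prop,
      (∀ q ξ η, F₀ q ξ η ↔ NameAt F (code q) (code ξ) (code η)) ∧
      Int M (fun q : (Cd M K B × El b) × El k => F₀ q.1.1 q.1.2 q.2) := by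
    refine ⟨fun q ξ η => Mem (op (code q) (op (code ξ) (code η))) F, fun q ξ η =>
      nameAt_iff.symm, ?_⟩
    have h1 : Int M (fun q : Cd M K B × (El b × El k) =>
        Mem (op (code q.1) (op (code q.2.1) (code q.2.2))) F) := ⟨F, fun _ => Iff.rfl⟩
    refine Int.comp (p := fun q : Cd M K B × (El b × El k) =>
        Mem (op (code q.1) (op (code q.2.1) (code q.2.2))) F) h1
        (f := fun q : (Cd M K B × El b) × El k => (q.1.1, (q.1.2, q.2))) ?_
    (repeat' (first | with_reducible exact IntF.id | with_reducible exact IntF.fst' | with_reducible exact IntF.snd' | with_reducible exact IntF.const _ | with_reducible exact Int.const _ | assumption | with_reducible apply Int.and | with_reducible apply Int.or | with_reducible apply Int.not | with_reducible apply Int.imp | with_reducible apply Int.iff | with_reducible apply Int.ne | with_reducible apply Int.eq | with_reducible apply Int.mem | with_reducible apply Int.subset | with_reducible apply Int.ltN | with_reducible apply Int.leN |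 with_reducible_and_instances apply Int.le | with_reducible_and_instances apply Int.lt | with_reducible apply Int.all | with_reducible apply Int.ex | with_reducible apply IntF.fst | with_reducible apply IntF.snd | with_reducible apply IntF.app | with_reducible apply IntF.inl | with_reducible apply IntF.inr | with_reducible_and_instances apply IntF.mul | with_reducible_and_instances apply IntF.inv | with_reducible_and_instances apply IntF.add | with_reducible_and_instances apply IntF.sub | with_reducible_and_instances apply IntF.neg | with_reducible_and_instances apply IntF.smul | with_reducible apply Int.fin | with_reducible apply IntF.sep | with_reducible apply IntF.lam | with_reducible apply IntF.insert | with_reducible apply IntF.singleton | with_reducible apply IntF.union | with_reducible apply IntF.iimage | with_reducible apply IntF.ite | with_reducible apply IntF.the | with_reducible apply IntF.irec | with_reducible apply IntF.succ | with_reducible apply IntF.val | with_reducible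 apply IntF.mk | (with_reducible refine Int.comp ?_ ?_; assumption) | (with_reducible refine Int.comp₂ ?_ ?_ ?_; assumption) | (with_reducible refine Int.comp₃ ?_ ?_ ?_ ?_; assumption) | (with_reducible refine Int.comp₄ ?_ ?_ ?_ ?_ ?_; assumption) | (with_reducible refine IntF.comp ?_ ?_; assumption) | (with_reducible refine IntF.comp₂ ?_ ?_ ?_; assumption) | (with_reducible refine IntF.comp₃ ?_ ?_ ?_ ?_; assumption) | with_reducible apply IntF.pair))
  have hCI := int_Cle (M := M) (K := K) (B := B)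
  have hDI := int_Dc hF₀I
  have hF1 : ∀ r q q' ξ η η', Cle r p₀ → Cle r q → Cle r q' → F₀ q ξ η → F₀ q' ξ η' →
      η = η' := by
    intro r q q' ξ η η' h1 h2 h3 h4 h5
    refine ITy.inj (M := M) (hF.func (code r) (code q) (code q') (code ξ) (code η) (code η')
      (hPc r) ?_ (hPc q) (sub_iff.2 h2) (hPc q') (sub_iff.2 h3) ξ.2 η.2 η'.2
      ((hF₀ _ _ _).1 h4) ((hF₀ _ _ _).1 h5))
    rw [← hp₀]
    exact sub_iff.2 h1
  have htot : ∀ (ξ : El b) (r : Cd M K B), Cle r p₀ → ∃ s η, Cle s r ∧ Dc F₀ s ξ η := by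
    intro ξ r hr
    obtain ⟨s, q, y, h1, h2, h3, h4, h5, h6⟩ := hF.total (code ξ) (code r) ξ.2 (hPc r) (by
      rw [← hp₀]
      exact sub_iff.2 hr)
    obtain ⟨s, rfl⟩ := (hPm s).1 h1
    obtain ⟨q, rfl⟩ := (hPm q).1 h3
    exact ⟨s, ⟨y, h5⟩, sub_iff.1 h2, q, sub_iff.1 h4, (hF₀ _ _ _).2 h6⟩
  -- no condition decides the name
  have hU : ∀ r, Cle r p₀ → ∃ ξ u u' η η', Cle u r ∧ Cle u' r ∧ Dc F₀ u ξ η ∧ Dc F₀ u' ξ η' ∧
      η ≠ η' := by
    intro r hr
    have hr' : Sub p (code r) := by
      rw [← hp₀]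
      exact sub_iff.2 hr
    by_contra hcon
    push Not at hcon
    by_cases hk : ∃ y, Mem y k
    swap
    · by_cases hb : ∃ x, Mem x b
      · obtain ⟨x, hx⟩ := hb
        obtain ⟨s, η, -, -⟩ := htot ⟨x, hx⟩ r hr
        exact hk ⟨η.1, η.2⟩
      · obtain ⟨s, q, x, y, -, -, -, -, hx, -⟩ := hF.new
          (relc M fun (_ : El b) (_ : El k) => False) (code r) ⟨fun q hq => by
            obtain ⟨a, -⟩ := (mem_relc (Int.const False)).1 hq
            exact absurd ⟨a.1, a.2⟩ hb, fun x hx => absurd ⟨x, hx⟩ hb⟩ (hPc r) hr'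
        exact hb ⟨x, hx⟩
    obtain ⟨y₁, hy₁⟩ := hk
    have hI : Int M (fun q : El b × El k => ∃ u, Cle u r ∧ Dc F₀ u q.1 q.2) := by
      refine Int.ex (Int.and ?_ ?_)
      · exact Int.comp₂ (p := fun q p => Cle q p) hCI IntF.snd' (IntF.const r)
      · exact Int.comp₃ (p := fun q ξ η => Dc F₀ q ξ η) hDI IntF.snd' (IntF.fst IntF.fst')
          (IntF.snd IntF.fst')
    have hG : IntF M (fun ξ : El b => the (fun η => ∃ u, Cle u r ∧ Dc F₀ u ξ η)
        (⟨y₁, hy₁⟩ : El k)) := IntF.the hI (IntF.const _)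
    have hv : ∀ ξ u η, Cle u r → Dc F₀ u ξ η →
        the (fun η => ∃ u, Cle u r ∧ Dc F₀ u ξ η) (⟨y₁, hy₁⟩ : El k) = η := by
      intro ξ u η h1 h2
      refine the_eq ⟨η, ⟨u, h1, h2⟩, ?_⟩ ⟨u, h1, h2⟩
      rintro η' ⟨u', h1', h2'⟩
      exact hcon ξ u' u η' η h1' h1 h2' h2
    obtain ⟨s, q, x, y, hs, h1, hq, h2, hx, hy, h3, h4⟩ := hF.new _ (code r) (ac_isFun hG)
      (hPc r) hr'
    obtain ⟨s, rfl⟩ := (hPm s).1 hs
    obtain ⟨q, rfl⟩ := (hPm q).1 hq
    have hI' : Int M (fun q : El b × El k =>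
      the (fun η => ∃ u, Cle u r ∧ Dc F₀ u q.1 η) (⟨y₁, hy₁⟩ : El k) = q.2) := hG
    exact h4 (app_iff.2 ((mem_relc hI').2 ⟨⟨x, hx⟩, ⟨y, hy⟩,
      hv ⟨x, hx⟩ s ⟨y, hy⟩ (sub_iff.1 h1) ⟨q, sub_iff.1 h2, (hF₀ _ _ _).2 h3⟩, rfl⟩))
  obtain ⟨π₀, π₂, hPos⟩ := exists_pos h
  obtain ⟨hf, hfI, hfib⟩ := h.fib hj hji y₀
  obtain ⟨p₁, hp₁⟩ := exists_lft h p₀ hPos
  have hNI := int_Nf hPos (o := o) (i := i) hF₀I hfI y₀
  have hNI' : Int M (fun q : Cd M K B × (El b × El k') =>
      Nf π₀ π₂ o i F₀ hf y₀ q.1 q.2.1 q.2.2) := by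
    refine Int.comp₃ (p := fun q ξ y => Nf π₀ π₂ o i F₀ hf y₀ q ξ y) hNI ?_ ?_ ?_ <;> (repeat' (first | with_reducible exact IntF.id | with_reducible exact IntF.fst' | with_reducible exact IntF.snd' | with_reducible exact IntF.const _ | with_reducible exact Int.const _ | assumption | with_reducible apply Int.and | with_reducible apply Int.or | with_reducible apply Int.not | with_reducible apply Int.imp | with_reducible apply Int.iff | with_reducible apply Int.ne | with_reducible apply Int.eq | with_reducible apply Int.mem | with_reducible apply Int.subset | with_reducible apply Int.ltN | with_reducible apply Int.leN | with_reducible_and_instances apply Int.le | with_reducible_and_instances apply Int.lt | with_reducible apply Int.all | with_reducible apply Int.ex | with_reducible apply IntF.fst | with_reducible apply IntF.snd | with_reducible apply IntF.app | with_reducible apply IntF.inl | with_reducible apply IntF.inr | with_reducible_and_instances apply IntF.mul | with_reducible_and_instances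 apply IntF.inv | with_reducible_and_instances apply IntF.add | with_reducible_and_instances apply IntF.sub | with_reducible_and_instances apply IntF.neg | with_reducible_and_instances apply IntF.smul | with_reducible apply Int.fin | with_reducible apply IntF.sep | with_reducible apply IntF.lam | with_reducible apply IntF.insert | with_reducible apply IntF.singleton | with_reducible apply IntF.union | with_reducible apply IntF.iimage | with_reducible apply IntF.ite | with_reducible apply IntF.the | with_reducible apply IntF.irec | with_reducible apply IntF.succ | with_reducible apply IntF.val | with_reducible apply IntF.mk | (with_reducible refine Int.comp ?_ ?_; assumption) | (with_reducible refine Int.comp₂ ?_ ?_ ?_; assumption) | (with_reducible refine Int.comp₃ ?_ ?_ ?_ ?_; assumption) | (with_reducible refine Int.comp₄ ?_ ?_ ?_ ?_ ?_; assumption) | (with_reducible refine IntF.comp ?_ ?_; assumption) | (with_reducible refine IntF.comp₂ ?_ ?_ ?_; assumption) | (with_reducible refine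 IntF.comp₃ ?_ ?_ ?_ ?_; assumption) | with_reducible apply IntF.pair))
  have hN : ∀ (q : Cd M K B) (ξ : El b) (y : El k'),
      NameAt (relc M fun (q : Cd M K B) (c : El b × El k') => Nf π₀ π₂ o i F₀ hf y₀ q c.1 c.2)
        (code q) (code ξ) (code y) ↔ Nf π₀ π₂ o i F₀ hf y₀ q ξ y := by
    intro q ξ y
    rw [nameAt_iff, mem_relc hNI']
    constructor
    · rintro ⟨q', c, h1, h2⟩
      obtain ⟨h3, h4⟩ := op_inj h2
      have h5 := ITy.inj (M := M) h3
      have h6 : ((ξ, y) : El b × El k') = c := ITy.inj (M := M) h4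
      rw [h5]
      rw [← h6] at h1
      exact h1
    · intro h1
      exact ⟨q, (ξ, y), h1, rfl⟩
  refine ⟨code p₁, relc M fun (q : Cd M K B) (c : El b × El k') =>
    Nf π₀ π₂ o i F₀ hf y₀ q c.1 c.2, hPc p₁, ?_, ?_, ?_⟩
  · intro r q q' x y y' hr h1 hq h2 hq' h3 hx hy hy' h4 h5
    obtain ⟨r, rfl⟩ := (hPm r).1 hr
    obtain ⟨q, rfl⟩ := (hPm q).1 hq
    obtain ⟨q', rfl⟩ := (hPm q').1 hq'
    have h6 := (hN q ⟨x, hx⟩ ⟨y, hy⟩).1 h4
    have h7 := (hN q' ⟨x, hx⟩ ⟨y', hy'⟩).1 h5
    have h8 := nf_unique h hoi h6 h7 (Cle.cm (sub_iff.1 h2) (sub_iff.1 h3))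
    exact congrArg (fun z : El k' => z.1) h8
  · intro x r hx hr h1
    obtain ⟨r, rfl⟩ := (hPm r).1 hr
    obtain ⟨s, hs, y, hy⟩ := nf_total (π₀ := π₀) (π₂ := π₂) (o := o) (i := i) (F := F₀)
      (hf := hf) (y₀ := y₀) r ⟨x, hx⟩
    exact ⟨code s, code s, y.1, hPc s, sub_iff.2 hs, hPc s, sub_iff.2 (Cle.refl s), y.2,
      (hN s ⟨x, hx⟩ y).2 hy⟩
  · intro y r hy hr h1
    obtain ⟨r, rfl⟩ := (hPm r).1 hr
    obtain ⟨y, rfl⟩ : ∃ y' : El k', y'.1 = y := ⟨⟨y, hy⟩, rfl⟩
    obtain ⟨q, ξ, θ, h2, h3, h4⟩ := exists_wit h hPos hoi hF₀I hF1 hU (y := y)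
      (hfib y) (r := r) fun c hc => sub_iff.1 h1 _ ((hp₁ _).2 ⟨c, hc, rfl⟩)
    exact ⟨code q, code q, ξ.1, hPc q, sub_iff.2 h2, hPc q, sub_iff.2 (Cle.refl q), ξ.2,
      (hN q ξ y).2 (Or.inl ⟨θ, h3, h4⟩)⟩

/-- a surjection in the extension that does not exist in the model is new -/
theorem ac_new {P p F b k : M} (hF : ForcesSurj P p F b k) (hno : ¬ ∃ g, IsOnto g b k) :
    ForcesNew P p F b k := by
  refine ⟨hF.mem, hF.func, hF.total, fun g r hg hr hpr => ?_⟩
  by_contra hcon
  refine hno ⟨g, hg, fun y hy => ?_⟩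
  obtain ⟨s, q, x, h1, h2, h3, h4, h5, h6⟩ := hF.onto y r hy hr hpr
  refine ⟨x, ?_⟩
  by_contra h7
  exact hcon ⟨s, q, x, y, h1, h2, h3, h4, h5, hy, h6, h7⟩

theorem ac_main {w l P : M} (hw : IsOmega w) (hl : IsCard l) (hwl : Mem w l)
    (hP : IsCohen P l) {b k p F : M} (hF : ForcesNew P p F b k)
    {k' : M} (hk' : ∀ x, Mem x k' → Mem x l) (hne : ∃ x, Mem x k') :
    ∃ p' F', ForcesSurj P p' F' b k' := by
  obtain ⟨two, o, i, htwo, hoi⟩ := exists_two (M := M)
  letI := olin hl.1
  letI := oile hl.1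
  have hC : Crd M (El l) := ac_crd hl hw hwl
  obtain ⟨y₀, hy₀⟩ := hne
  exact ac_transfer (K := El l) (B := El two) hC hl.1 (fun z => mem_El) (fun x y => Iff.rfl)
    (fun z => (htwo z).symm.trans mem_El) hoi hP hF (int_incE hk')
    (fun x y hxy => incE_inj hk' hxy) ⟨y₀, hy₀⟩

/-- there is no function from an element of a cardinal onto the cardinal -/
theorem ac_noonto {k b : M} (hk : IsCard k) (hb : Mem b k) : ¬ ∃ g, IsOnto g b k := by
  rintro ⟨g₀, hg₀, hs₀⟩
  have hbo : IsOrdinal b := isOrdinal_of_mem hk.1 hb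
  obtain ⟨g, hg, hgg⟩ := exists_fun (α := El b) (β := El k) hg₀ (fun x => x.2)
    fun z hz => mem_El.1 hz
  have hgs : Function.Surjective g := by
    intro y
    obtain ⟨x, hx⟩ := hs₀ y.1 y.2
    have hxb : Mem x b := by
      obtain ⟨q, h1, h2⟩ := hx
      obtain ⟨x', y', h3, -, h4⟩ := hg₀.1 q h2
      rw [ordPair_iff] at h1 h4
      rw [h1] at h4
      obtain ⟨h5, -⟩ := op_inj h4
      rw [h5]
      exact h3
    exact ⟨⟨x, hxb⟩, (hgg ⟨x, hxb⟩ y).2 hx⟩
  by_cases hbe : ∃ x, Mem x b
  · obtain ⟨x₀, hx₀⟩ := hbe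
    have hI : Int M (fun q : El k × El b => g q.2 = q.1) := Int.eq (hg.comp IntF.snd') IntF.fst'
    obtain ⟨s, hs, h6⟩ := exists_lf (iwo_El fun _ hx => isOrdinal_of_mem hbo hx)
      (γ := El k) (r := fun y x => g x = y) hI ⟨x₀, hx₀⟩
    refine hk.2 b hb ⟨_, isInj_relc hs (fun x y hxy => ?_) fun x => (s x).2⟩
    rw [← (h6 x (hgs x)).1, ← (h6 y (hgs y)).1, hxy]
  · obtain ⟨x, -⟩ := hgs ⟨b, hb⟩
    exact hbe ⟨x.1, x.2⟩

end

end Pool.Agent.Helper672.ZFA.V246

namespace Pool.Agent.Results.MP_cbc9f3_lc.AllCardinals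

open FirstOrder FirstOrder.Language
open Pool.Agent.Helper672.Plain (LSet Mem)
open Pool.Agent.H310Cards
open Pool.Agent.H635Amen (ZF)
open Pool.Agent.V11246
open Pool.Agent.Helper672.ZFA.V246 (ac_main ac_new ac_noonto)

universe u

/-- **New functions and collapsed cardinals of `Add(l, 1)`, for every uncountable cardinal `l`, in
every model of ZF.** (1) If a condition forces that `F` is a new function from `b` to `k`, then
some condition forces a surjection from `b` onto `l`; `b` and `k` are arbitrary sets of the model.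
(2) A cardinal `k` that is at most `l` is collapsed if and only if new functions are added on some
element `b` of `k`. (3) If a cardinal `k` is collapsed, then every `k'` with `k ≤ k' ≤ l` is
collapsed. (4) The case of the problem: if `Add(w₃, 1)` collapses `w₁`, then it collapses `w₂` and
`w₃`. -/
theorem result : ∀ (M : Type u) [LSet.Structure M], ZF M → ∀ w₀ l P : M, IsOmega w₀ →
    IsCard l → Mem w₀ l → IsCohen P l →
    (∀ b k p F : M, ForcesNew P p F b k → ∃ p' F', ForcesSurj P p' F' b l) ∧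
    (∀ k : M, IsCard k → (∀ x, Mem x k → Mem x l) →
      (Collapses P k ↔ ∃ b k' p F : M, Mem b k ∧ ForcesNew P p F b k')) ∧
    (∀ k k' : M, IsCard k → (∀ x, Mem x k → Mem x k') → (∀ x, Mem x k' → Mem x l) →
      Collapses P k → Collapses P k') ∧
    (∀ w₁ w₂ : M, IsSuccCard w₁ w₀ → IsSuccCard w₂ w₁ → IsSuccCard l w₂ →
      Collapses P w₁ → Collapses P w₂ ∧ Collapses P l) := by
  intro M _ hM w₀ l P hw hl hwl hP
  haveI : ZF M := hM
  have hself : ∀ x, Mem x l → Mem x l := fun _ h => h
  refine ⟨fun b k p F hF => ac_main hw hl hwl hP hF hself ⟨w₀, hwl⟩, fun k hk hkl => ⟨?_, ?_⟩,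
    fun k k' hk hkk' hk'l => ?_, fun w₁ w₂ h₁ h₂ h₃ hc =>
      AlsoCollapses.result M hM w₀ w₁ w₂ l P hw h₁ h₂ h₃ hP hc⟩
  · rintro ⟨p, b, F, hb, hF⟩
    exact ⟨b, k, p, F, hb, ac_new hF (ac_noonto hk hb)⟩
  · rintro ⟨b, k', p, F, hb, hF⟩
    obtain ⟨p', F', h⟩ := ac_main hw hl hwl hP hF hkl ⟨b, hb⟩
    exact ⟨p', b, F', hb, h⟩
  · rintro ⟨p, b, F, hb, hF⟩
    obtain ⟨p', F', h⟩ := ac_main hw hl hwl hP (ac_new hF (ac_noonto hk hb)) hk'l ⟨b, hkk' b hb⟩
    exact ⟨p', b, F', hkk' b hb, h⟩

end Pool.Agent.Results.MP_cbc9f3_lc.AllCardinals
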